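import Mathlib

set_option autoImplicit false

namespace Pool.Agent.H.MP_8e1c75_pr

open Finset

abbrev V : Type := Option (Fin 200 × Fin 7)

/-- gadget edges, oriented from the B side to the A side -/
def e0 (b : Option (Fin 7)) (a : Option (Fin 7)) : Prop :=
  (b = some 4 ∧ (a = none ∨ a = some 0 ∨ a = some 1)) ∨
  (b = some 5 ∧ (a = none ∨ a = some 0 ∨ a = some 2)) ∨
  (b = some 6 ∧ (a = some 1 ∨ a = some 2 ∨ a = some 3))

instance (b a : Option (Fin 7)) : Decidable (e0 b a) := by unfold e0; infer_instance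

def pr (x : V) : Option (Fin 7) := x.map Prod.snd

def same (x y : V) : Prop := ∀ p ∈ x, ∀ r ∈ y, p.1 = r.1

def G : SimpleGraph V where
  Adj x y := (e0 (pr x) (pr y) ∨ e0 (pr y) (pr x)) ∧ same x y
  symm := ⟨fun x y h => ⟨h.1.symm, fun p hp r hr => (h.2 r hr p hp).symm⟩⟩
  loopless := ⟨fun x h => by
    have : ∀ a : Option (Fin 7), ¬ e0 a a := by decide
    exact this _ (h.1.elim id id)⟩

def sideA (a : Option (Fin 7)) : Prop := a ≠ some 4 ∧ a ≠ some 5 ∧ a ≠ some 6

instance (a : Option (Fin 7)) : Decidable (sideA a) := by unfold sideA; infer_instance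

def A : Finset V := univ.filter (fun x => sideA (pr x))

lemma bip (v w : V) (h : G.Adj v w) : v ∈ A ↔ w ∉ A := by
  have : ∀ a b : Option (Fin 7), (e0 a b ∨ e0 b a) → (sideA a ↔ ¬ sideA b) := by decide
  simp only [A, mem_filter, mem_univ, true_and]
  exact this _ _ h.1

def P (c : Fin 3) (g : Fin 7 → Fin 3) : Prop :=
  g 4 ≠ c ∧ g 4 ≠ g 0 ∧ g 4 ≠ g 1 ∧ g 5 ≠ c ∧ g 5 ≠ g 0 ∧ g 5 ≠ g 2 ∧
    g 6 ≠ g 1 ∧ g 6 ≠ g 2 ∧ g 6 ≠ g 3

instance (c : Fin 3) (g : Fin 7 → Fin 3) : Decidable (P c g) := by unfold P; infer_instance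

lemma adj1 (i : Fin 200) (b : Fin 7) (h : e0 (some b) none) : G.Adj (some (i, b)) none :=
  ⟨Or.inl h, fun _ _ r hr => by simp at hr⟩

lemma adj2 (i : Fin 200) (b a : Fin 7) (h : e0 (some b) (some a)) :
    G.Adj (some (i, b)) (some (i, a)) :=
  ⟨Or.inl h, fun p hp r hr => by
    simp only [Option.mem_def, Option.some.injEq] at hp hr
    rw [← hp, ← hr]⟩

lemma proper_iff (f : V → Fin 3) :
    (∀ v w : V, G.Adj v w → f v ≠ f w) ↔ ∀ i, P (f none) (fun a => f (some (i, a))) := by
  constructor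
  · intro h i
    exact ⟨h _ _ (adj1 i 4 (by decide)), h _ _ (adj2 i 4 0 (by decide)),
      h _ _ (adj2 i 4 1 (by decide)), h _ _ (adj1 i 5 (by decide)),
      h _ _ (adj2 i 5 0 (by decide)), h _ _ (adj2 i 5 2 (by decide)),
      h _ _ (adj2 i 6 1 (by decide)), h _ _ (adj2 i 6 2 (by decide)),
      h _ _ (adj2 i 6 3 (by decide))⟩
  · intro h
    have key : ∀ v w : V, e0 (pr v) (pr w) → same v w → f v ≠ f w := by
      intro v w he hs
      rcases v with _ | ⟨i, b⟩
      · exfalso
        have : ∀ a : Option (Fin 7), ¬ e0 none a := by decide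
        exact this _ he
      · obtain ⟨h1, h2, h3, h4, h5, h6, h7, h8, h9⟩ := h i
        rcases w with _ | ⟨j, a⟩
        · simp only [pr, Option.map_some, Option.map_none, e0, Option.some.injEq] at he
          rcases he with ⟨rfl, -⟩ | ⟨rfl, -⟩ | ⟨rfl, h'⟩
          · exact h1
          · exact h4
          · simp at h'
        · have hij : i = j := hs (i, b) rfl (j, a) rfl
          subst hij
          simp only [pr, Option.map_some, e0, Option.some.injEq, reduceCtorEq, false_or] at he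
          rcases he with ⟨rfl, rfl | rfl⟩ | ⟨rfl, rfl | rfl⟩ | ⟨rfl, rfl | rfl | rfl⟩
          · exact h2
          · exact h3
          · exact h5
          · exact h6
          · exact h7
          · exact h8
          · exact h9
    intro v w hvw
    rcases hvw.1 with he | he
    · exact key v w he hvw.2
    · exact (key w v he (fun p hp r hr => (hvw.2 r hr p hp).symm)).symm

def eqv (Q : Fin 3 → (Fin 7 → Fin 3) → Prop) :
    {f : V → Fin 3 // ∀ i, Q (f none) (fun a => f (some (i, a)))} ≃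
      (Σ c : Fin 3, (Fin 200 → {g : Fin 7 → Fin 3 // Q c g})) where
  toFun f := ⟨f.1 none, fun i => ⟨fun a => f.1 (some (i, a)), f.2 i⟩⟩
  invFun s := ⟨fun x => match x with
    | none => s.1
    | some p => (s.2 p.1).1 p.2, fun i => (s.2 i).2⟩
  left_inv f := by
    apply Subtype.ext
    funext x
    rcases x with _ | ⟨i, a⟩ <;> rfl
  right_inv s := rfl

lemma count (Q : Fin 3 → (Fin 7 → Fin 3) → Prop) [∀ c g, Decidable (Q c g)]
    (R : (V → Fin 3) → Prop) [DecidablePred R]
    (hR : ∀ f, R f ↔ ∀ i, Q (f none) (fun a => f (some (i, a)))) :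
    (univ.filter R).card = ∑ c : Fin 3, (univ.filter (Q c)).card ^ 200 := by
  classical
  rw [← Fintype.card_subtype]
  rw [Fintype.card_congr ((Equiv.subtypeEquivRight hR).trans (eqv Q)), Fintype.card_sigma]
  refine Finset.sum_congr rfl fun c _ => ?_
  rw [Fintype.card_fun, Fintype.card_fin, Fintype.card_subtype]

lemma c0 : ∀ c : Fin 3, (univ.filter (P c)).card = 68 := by decide +kernel

lemma c1 : ∀ c : Fin 3, (univ.filter (fun g => P c g ∧ c = 0 ∧ g 0 = 0)).card =
    if c = 0 then 44 else 0 := by decide +kernel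

lemma c2 : ∀ c : Fin 3, (univ.filter (fun g => P c g ∧ c = 0 ∧ g 3 = 0)).card =
    if c = 0 then 28 else 0 := by decide +kernel

lemma c3 : ∀ c : Fin 3, (univ.filter (fun g => P c g ∧ c = 0 ∧ g 0 = 0 ∧ g 3 = 0)).card =
    if c = 0 then 18 else 0 := by decide +kernel

end Pool.Agent.H.MP_8e1c75_pr
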